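import Pool.Agent.P.MP_4b59b0_al.Quot
import Pool.Agent.P.MP_4b59b0_al.Base

set_option autoImplicit false

namespace Pool.Agent.P.MP_4b59b0_al.Cls

open Sp

/-- Commuting elements are powers of one element. -/
def Cyc (H : Type) [Group H] : Prop :=
  ∀ a b : H, Commute a b → ∃ c, a ∈ Subgroup.zpowers c ∧ b ∈ Subgroup.zpowers c

section

variable {V : Type} {X : Sp V} {H : Type} [Group H] [MulAction H V] {δ A : ℕ}

theorem cyc_arith {p0 pb pg pi β τ d1 d2 d3 c δ : ℕ}
    (l1 : p0 + β ≤ pb + c + δ ∨ pb + β ≤ p0 + c + δ)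
    (l2 : p0 + τ ≤ pg + c + δ ∨ pg + τ ≤ p0 + c + δ)
    (l3 : p0 + τ ≤ pi + c + δ ∨ pi + τ ≤ p0 + c + δ)
    (l4 : pg + d1 ≤ pb + c + δ ∨ pb + d1 ≤ pg + c + δ)
    (l5 : pi + d2 ≤ pb + c + δ ∨ pb + d2 ≤ pi + c + δ)
    (l6 : pg + d3 ≤ pi + c + δ ∨ pi + d3 ≤ pg + c + δ)
    (h1 : pb ≤ p0 + β) (h2 : p0 ≤ pb + β) (h3 : pg ≤ p0 + τ) (h4 : p0 ≤ pg + τ)
    (h5 : pi ≤ p0 + τ) (h6 : p0 ≤ pi + τ) (b1 : τ ≤ β) (b2 : 2 * c + 2 * δ < τ) :
    d1 < β ∨ d2 < β ∨ d3 ≤ 2 * c + 2 * δ := by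
  rcases l2 with l2 | l2 <;> rcases l3 with l3 | l3
  · right; right; clear l1 l4 l5; omega
  · rcases l1 with l1 | l1
    · left; clear l5 l6; omega
    · right; left; clear l4 l6; omega
  · rcases l1 with l1 | l1
    · right; left; clear l4 l6; omega
    · left; clear l5 l6; omega
  · right; right; clear l1 l4 l5; omega

/-- A centraliser acting freely along an axis is cyclic. -/
theorem free_cyc (iso : X.Iso H) (hδ : X.Hyp δ) {a : H} {w : V} {c : ℕ} (a1 : a ≠ 1)
    (hw : X.Ax a c w) (rigid : ∀ h : H, X.d w (h • w) ≤ 2 * c + 2 * δ → h = 1)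
    (tf : ∀ g : H, g ^ 2 = 1 → g = 1) :
    ∃ g : H, ∀ b, Commute a b → b ∈ Subgroup.zpowers g := by
  classical
  have hex : ∃ t, ∃ g : H, g ≠ 1 ∧ Commute a g ∧ X.d w (g • w) = t :=
    ⟨_, a, a1, Commute.refl a, rfl⟩
  obtain ⟨g, g1, ga, gt⟩ := Nat.find_spec hex
  have gmin : ∀ b : H, b ≠ 1 → Commute a b → X.d w (g • w) ≤ X.d w (b • w) := by
    intro b b1 hb
    rw [gt]; exact Nat.find_min' hex ⟨b, b1, hb, rfl⟩
  have gbig : 2 * c + 2 * δ < X.d w (g • w) := by
    by_contra hc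
    exact g1 (rigid g (by omega))
  refine ⟨g, ?_⟩
  have main : ∀ (t : ℕ) (b : H), Commute a b → X.d w (b • w) ≤ t → b ∈ Subgroup.zpowers g := by
    intro t
    induction t with
    | zero =>
      intro b _ hb
      rw [rigid b (by omega)]; exact one_mem _
    | succ t ih =>
      intro b hb ht
      by_cases b1 : b = 1
      · rw [b1]; exact one_mem _
      have hmin := gmin b b1 hb
      obtain ⟨N1, hN1⟩ := hw w
      obtain ⟨N2, hN2⟩ := hw.comm iso hb w
      obtain ⟨N3, hN3⟩ := hw.comm iso ga w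
      obtain ⟨N4, hN4⟩ := hw.comm iso ga.inv_right w
      have c1 := hN1 (N1 + N2 + N3 + N4) (N1 + N2 + N3 + N4) (by omega) (by omega)
      have c2 := hN2 (N1 + N2 + N3 + N4) (N1 + N2 + N3 + N4) (by omega) (by omega)
      have c3 := hN3 (N1 + N2 + N3 + N4) (N1 + N2 + N3 + N4) (by omega) (by omega)
      have c4 := hN4 (N1 + N2 + N3 + N4) (N1 + N2 + N3 + N4) (by omega) (by omega)
      generalize a⁻¹ ^ (N1 + N2 + N3 + N4) • w = p at *
      generalize a ^ (N1 + N2 + N3 + N4) • w = q at *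
      have e0 := iso.disp_inv g w
      have l3 := hδ.l2 c1 c4
      rw [e0] at l3
      have key := cyc_arith (hδ.l2 c1 c2) (hδ.l2 c1 c3) l3 (hδ.l2 c3 c2) (hδ.l2 c4 c2)
        (hδ.l2 c3 c4) (X.tri p w (b • w))
        (by have := X.tri p (b • w) w; rwa [X.symm (b • w) w] at this) (X.tri p w (g • w))
        (by have := X.tri p (g • w) w; rwa [X.symm (g • w) w] at this)
        (by have := X.tri p w (g⁻¹ • w); rwa [e0] at this)
        (by have := X.tri p (g⁻¹ • w) w; rwa [X.symm (g⁻¹ • w) w, e0] at this) hmin gbig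
      rcases key with h | h | h
      · have h2 := ih (g⁻¹ * b) (ga.inv_right.mul_right hb) (by
          rw [mul_smul, iso.inv']; omega)
        have := mul_mem (Subgroup.mem_zpowers g) h2
        rwa [mul_inv_cancel_left] at this
      · have h2 := ih (g * b) (ga.mul_right hb) (by
          rw [mul_smul, ← iso.inv]; omega)
        have := mul_mem (inv_mem (Subgroup.mem_zpowers g)) h2
        rwa [inv_mul_cancel_left] at this
      · refine absurd (tf g (rigid _ ?_)) g1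
        rw [pow_two, mul_smul, ← iso.inv, X.symm]; exact h
  exact fun b hb => main _ b hb le_rfl

theorem dl_coreE (inv : Inv X H δ A) (csa : CSA H) {a b : H} (hab : ¬ Commute a b) {q : V}
    {ε l e : ℕ} (he : 61 ≤ e) (hq : X.d (a⁻¹ ^ e • q) (b ^ e • q) ≤ ε) (ha : X.Mv a l)
    (pa : V) (hpa : X.d pa (a • pa) ≤ l) (pb : V) (hpb : X.d pb (b • pb) ≤ l)
    (hl : A + 10 * ε + 100 * δ < l) : False := by
  have iso := inv.iso; have hδ := inv.hyp; have pos := inv.pos
  have ha1 : a ≠ 1 := by rintro rfl; exact hab (Commute.one_left _)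
  have hb1 : b ≠ 1 := by rintro rfl; exact hab (Commute.one_right _)
  set g := b ^ e with hg
  set k := a⁻¹ ^ e with hk
  have hka : Commute k a := ((Commute.refl a).inv_left.pow_left _)
  have hgb : Commute g b := ((Commute.refl b).pow_left _)
  obtain ⟨m, m1, m2⟩ := X.exists_mid q (g • q)
  obtain ⟨m', m1', m2'⟩ := X.exists_mid q (k • q)
  obtain ⟨l', rfl⟩ : ∃ l', l = l' + 3 * δ := ⟨l - 3 * δ, by omega⟩
  have τ' : 61 * l' ≤ X.d m' (k • m') + 5 * δ :=
    (Nat.mul_le_mul_right _ he).trans ((ha.inv iso).pow iso hδ (by omega) e m')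
  have t1 := X.tri q (k • q) (g • q); have t2 := X.tri q (g • q) (k • q)
  have t3 := X.symm (k • q) (g • q)
  have t4 : X.d m' (k • m') ≤ X.d q (k • q) := by
    have := X.tri m' (k • q) (k • m'); have := iso k q m'
    unfold Bt at m1'; omega
  have win : ∀ y, X.Bt δ q y (g • q) →
      2 * X.d q y + 4 * ε + 5 * δ < 2 * X.d q m + X.d m' (k • m') →
      2 * X.d q m + 6 * ε + 8 * δ < 2 * X.d q y + X.d m' (k • m') →
      X.d y (a • y) ≤ l' + 2 * ε + 14 * δ := by
    intro y hy h1 h2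
    have hy' := hy.move (a' := q) (b' := k • q) (D := 0) (D' := ε) (by simp [X.d_self]) (by omega)
    have := (cw iso hδ m1' m2' (by omega) hy' (by omega) (by omega)).move iso hδ hka pa
    omega
  by_cases hτ : 61 * l' ≤ 4 * X.d m (g • m)
  · have t5 : X.d m (g • m) ≤ X.d q (g • q) := by
      have := X.tri m (g • q) (g • m); have := iso g q m
      unfold Bt at m1; omega
    obtain ⟨y1, y11, y12⟩ := X.geod' q (g • q)
      (X.d q m - (5 * l' + A + 10 * ε + 120 * δ)) (by omega)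
    obtain ⟨y2, y21, y22⟩ := X.geod' q (g • q)
      (X.d q m + (5 * l' + A + 10 * ε + 120 * δ)) (by omega)
    have a1 := win y1 (y12.mono (by omega)) (by omega) (by omega)
    have a2 := win y2 (y22.mono (by omega)) (by omega) (by omega)
    have b1 := (cw iso hδ m1 m2 (by omega) y12 (by omega) (by omega)).move iso hδ hgb pb
    have b2 := (cw iso hδ m1 m2 (by omega) y22 (by omega) (by omega)).move iso hδ hgb pb
    have := X.tri q y1 y2
    exact hab (inv.i1big csa a1 a2 (by omega) (by omega) (by omega))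
  · have sym : ∀ y, X.Bt 0 q y m → 2 * X.d q y + X.d m (g • m) + δ < 2 * X.d q m →
        X.Bt δ q (g • y) (g • q) ∧ X.d q (g • q) ≤ X.d q (g • y) + X.d q y ∧
          X.d q (g • y) + X.d q y ≤ X.d q (g • q) + δ := by
      intro y hy h1
      have e1 := iso g q y; have e2 := iso g y m; have e3 := iso g q m
      have := X.tri (g • q) (g • y) m; have := X.symm (g • q) m; have := X.symm (g • y) (g • m)
      have := X.symm m (g • m); have := X.tri q m (g • y); have := X.symm m (g • y)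
      have := X.symm (g • q) (g • y); have := X.tri q (g • y) (g • q)
      have := X.tri q y m; have := X.tri q m (g • q)
      rcases hδ.l1 (iso.bt g hy) m with h2 | h2 <;> unfold Bt at * <;> omega
    obtain ⟨y1, y11, y12⟩ := X.geod' q m (X.d q m - (8 * l' + δ)) (by omega)
    obtain ⟨y2, y21, y22⟩ := X.geod' q m
      (X.d q m - (18 * l' + A + 20 * ε + 241 * δ)) (by omega)
    have s1 := sym y1 y12 (by omega)
    have s2 := sym y2 y22 (by omega)
    have a1 := win y1 ((m1.trans_left y12).1.mono (by omega)) (by omega) (by omega)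
    have a2 := win y2 ((m1.trans_left y22).1.mono (by omega)) (by omega) (by omega)
    have b1 := win _ s1.1 (by omega) (by omega)
    have b2 := win _ s2.1 (by omega) (by omega)
    rw [← iso.disp_conj'] at b1 b2
    have := X.tri q y2 y1; have := X.symm y1 y2
    have c1 := inv.i1big csa a1 a2 b1 b2 (by omega)
    have c2 := csa.mal a g ha1 c1
    exact hab (csa.ct g a b (csa.pow_ne hb1 (by omega)) c2.symm hgb)

/-- DL: if `a ^ e * b ^ e` is short then `a` and `b` are simultaneously short. -/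
theorem dlE (inv : Inv X H δ A) (csa : CSA H) {a b : H} (hab : ¬ Commute a b) {q : V} {ε e : ℕ}
    (he : 61 ≤ e)
    (hq : X.d q ((a ^ e * b ^ e) • q) ≤ ε) :
    ∃ p, X.d p (a • p) ≤ 20 * ε + 2 * A + 200 * δ ∧ X.d p (b • p) ≤ 20 * ε + 2 * A + 200 * δ := by
  have iso := inv.iso; have hδ := inv.hyp; have pos := inv.pos
  have ha1 : a ≠ 1 := by rintro rfl; exact hab (Commute.one_left _)
  have hb1 : b ≠ 1 := by rintro rfl; exact hab (Commute.one_right _)
  have hq' : X.d (a⁻¹ ^ e • q) (b ^ e • q) ≤ ε := by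
    rw [inv_pow, iso.inv, smul_smul]; exact hq
  obtain ⟨pa, hpa⟩ := Inv.exists_min X a q
  obtain ⟨pb, hpb⟩ := Inv.exists_min X b q
  have hl : X.d pa (a • pa) ≤ A + 10 * ε + 100 * δ ∧ X.d pb (b • pb) ≤ A + 10 * ε + 100 * δ := by
    by_contra hc
    rcases le_total (X.d pb (b • pb)) (X.d pa (a • pa)) with h | h
    · exact dl_coreE inv csa hab he hq' hpa pa le_rfl pb h (by omega)
    · refine dl_coreE inv csa (a := b⁻¹) (b := a⁻¹) (q := q) (ε := ε) (l := X.d pb (b • pb))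
        (fun h => hab (by simpa using h.symm)) he (by rw [inv_inv, X.symm]; exact hq')
        (hpb.inv iso) pb (by rw [iso.disp_inv]) pa (by rw [iso.disp_inv]; exact h) (by omega)
  obtain ⟨m, m1, m2⟩ := X.exists_mid q (b ^ e • q)
  obtain ⟨m', m1', m2'⟩ := X.exists_mid q (a⁻¹ ^ e • q)
  have h1 := inv.axm (csa.pow_ne hb1 (by omega)) ((Commute.refl b).pow_right e) m1 m2 pb
  have h2 := inv.axm (csa.pow_ne (inv_ne_one.2 ha1) (by omega))
    ((Commute.refl a).inv_right.pow_right e) m1' m2' pa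
  have h3 := iso.disp_move a m m'
  have h4 := m1.move (a' := q) (b' := a⁻¹ ^ e • q) (D := 0) (D' := ε) (by simp [X.d_self])
    (by rw [X.symm]; exact hq')
  have t1 := X.tri q (a⁻¹ ^ e • q) (b ^ e • q); have t2 := X.tri q (b ^ e • q) (a⁻¹ ^ e • q)
  have t3 := X.symm (a⁻¹ ^ e • q) (b ^ e • q)
  have h5 := hδ.l2 h4 m1'
  exact ⟨m, by omega, by omega⟩

end

section

variable {V : Type} {X : Sp V} {H : Type} [Group H] [MulAction H V] {U : Type}
  [MulAction H U] {M Λ : ℕ} {P : Apx X H U M} {R : Rot P Λ} {δ A ρ : ℕ}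

attribute [local instance] QS.act

theorem Cyc.map {H H' : Type} [Group H] [Group H'] (hc : Cyc H) (f : H →* H') {a b : H}
    (h : Commute a b) : ∃ c, f a ∈ Subgroup.zpowers c ∧ f b ∈ Subgroup.zpowers c := by
  obtain ⟨c, ⟨i, rfl⟩, ⟨j, rfl⟩⟩ := hc a b h
  exact ⟨f c, ⟨i, (map_zpow f c i).symm⟩, ⟨j, (map_zpow f c j).symm⟩⟩

theorem cyc_quot (Q : QS R) (h : RH R δ A ρ) (hyp : Q.X'.Hyp δ) (x : V) (hc : Cyc H) :
    Cyc (H ⧸ R.N) := by
  intro a b hb
  by_cases a1 : a = 1
  · exact ⟨b, by rw [a1]; exact one_mem _, Subgroup.mem_zpowers b⟩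
  have pos := h.inv.pos; have hρ := h.hρ
  have iso' := Q.iso' h.inv.iso
  by_cases hm : Q.X'.Mv a (100 * δ)
  · obtain ⟨hE, m, m1, -⟩ := hm.ax iso' hyp (by omega) (Q.pr x)
    by_cases hu : ∃ u, Q.X'.Ax a (20 * δ) (Q.pr (P.ω u))
    · obtain ⟨u, hu⟩ := hu
      obtain ⟨g, hg⟩ := free_cyc iso' hyp a1 hu (fun k hk => Q.rigid h u k (by omega))
        (fun g hg => Q.tf' h hyp x g 2 (by omega) hg)
      exact ⟨g, hg a (Commute.refl a), hg b hb⟩
    · push Not at hu
      obtain ⟨q, rfl⟩ := Q.surj m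
      have key : ∀ b : H ⧸ R.N, Commute a b → ∃ b₀ : H, (b₀ : H ⧸ R.N) = b ∧
          Sm P M q (b₀ • q) := by
        intro b hb
        obtain ⟨b₀, rfl, e⟩ := Q.lift_el b q
        refine ⟨b₀, rfl, Q.sm_of (by rw [e, Q.eqv]) fun u hbt => hu u ?_⟩
        rw [Q.eqv] at hbt
        exact (m1.bt hyp (m1.comm iso' hb) hbt).mono (by omega)
      obtain ⟨a₀, rfl, sa⟩ := key a (Commute.refl a)
      have key2 : ∀ b₀ : H, Commute (a₀ : H ⧸ R.N) b₀ → Sm P M q (b₀ • q) → Commute a₀ b₀ := by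
        intro b₀ hb sb
        refine Sm.uniq h.inv.iso h.nt h.hΛ (θ := M + M + M + M) (x := q) (by omega) hb.eq ?_
        rw [mul_smul, mul_smul]
        exact (((sb.smul a₀).symm.tri sa.symm).tri sb).tri (sa.smul b₀)
      obtain ⟨b₀, rfl, sb⟩ := key b hb
      exact hc.map (QuotientGroup.mk' R.N) (key2 _ hb sb)
  · unfold Mv at hm
    push Not at hm
    obtain ⟨p, hp⟩ := hm
    obtain ⟨p, rfl⟩ := Q.surj p
    obtain ⟨a₀, rfl, e⟩ := Q.lift_el a p
    obtain ⟨b₀, rfl, -, b2⟩ := Q.lift_comm h hyp a1 (x := p) (by omega) hb.symm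
    exact hc.map (QuotientGroup.mk' R.N) b2.symm

end

theorem baseG (α : Type) : ∃ X : Sp (FreeGroup α), CSA (FreeGroup α) ∧ Cyc (FreeGroup α) ∧
    (∀ δ A : ℕ, 1 ≤ δ → 1000 * δ ≤ A → Inv X (FreeGroup α) δ A) ∧
    (∀ (g x : FreeGroup α) (n : ℕ), g ≠ 1 → n ≤ X.d x (g ^ n • x)) := by
  classical
  have iso := tree_iso α
  have hyp := tree_hyp α
  have tf : ∀ (g : FreeGroup α) (n : ℕ), 0 < n → g ^ n = 1 → g = 1 :=
    fun g n hn h => (pow_eq_one_iff_left (by omega)).1 h
  have ct : ∀ a b c : FreeGroup α, a ≠ 1 → Commute a b → Commute a c → Commute b c := by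
    intro a b c ha hb hc
    obtain ⟨m, -, h1, h2⟩ := tree_mid ha 1
    obtain ⟨h3, h4⟩ := ax0 iso hyp h1 (by omega)
    exact free_ct iso hyp h3 h4 (fun h hh => tree_free (x := m) (by omega)) hb hc
  refine ⟨tree _, ⟨tf, ct, fun a x ha hx => ?_⟩, fun a b hab => ?_,
    fun δ A h1 hA => ⟨iso, hyp.mono (by omega), h1,
    fun g h x y gx gy hx hy hd => ?_, fun g h p q h1 hc hp hq => ?_⟩, fun g x n hg => ?_⟩
  · obtain ⟨m, -, h1, h2⟩ := tree_mid ha 1
    obtain ⟨h3, h4⟩ := ax0 iso hyp h1 (by omega)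
    exact mal_of_conj tf ct (free_conj iso hyp h3 h4 (fun h hh => tree_free (x := m) (by omega)) hx)
  · by_cases ha : a = 1
    · exact ⟨b, by rw [ha]; exact one_mem _, Subgroup.mem_zpowers b⟩
    obtain ⟨m, -, h1, h2⟩ := tree_mid ha 1
    obtain ⟨h3, h4⟩ := ax0 iso hyp h1 (by omega)
    obtain ⟨g, hg⟩ := free_cyc iso hyp ha h4 (fun h hh => tree_free (x := m) (by omega))
      (fun g hg => tf g 2 (by omega) hg)
    exact ⟨g, hg a (Commute.refl a), hg b hab⟩
  · obtain ⟨m, m1, m2⟩ := (tree _).geod' x y (200 * δ + 1) (by omega)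
    have := (tree _).tri x m y; have := (tree _).symm y m
    have h2 := comm iso hyp gx gy hx hy m2 (by omega) (by omega)
    have h3 := (tree _).eq_of _ _ (Nat.le_zero.1 h2)
    rw [smul_smul, smul_smul] at h3
    exact mul_right_cancel h3
  · obtain ⟨m, m1, m2, m3⟩ := tree_mid h1 q
    have h2 := (ax0 iso hyp m2 (by omega)).2.move iso hyp hc.symm p
    have := iso.disp_move g q m
    omega
  · obtain ⟨m, -, m2, m3⟩ := tree_mid hg x
    have h2 := pow_lower iso hyp m2 (by omega) n x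
    have : n * 1 ≤ n * (tree _).d m (g • m) := Nat.mul_le_mul_left _ m3
    omega

end Pool.Agent.P.MP_4b59b0_al.Cls
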