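import Pool.Agent.P.MP_4b59b0_al.Lift

set_option autoImplicit false

namespace Pool.Agent.P.MP_4b59b0_al.Cls

/-- The kernel of `π` is abelian and centralised by all `κ`-th powers. -/
structure KC {G H : Type} [Group G] [Group H] (π : G →* H) (κ : ℕ) : Prop where
  pos : 0 < κ
  pw : ∀ g t, π t = 1 → Commute (g ^ κ) t
  ab : ∀ s t, π s = 1 → π t = 1 → Commute s t

theorem Wd_pow {G : Type} [Group G] {n n' : ℤ → ℤ} {κ : ℕ} (h : ∀ j, n j = κ * n' j) (a b : G)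
    (j : ℕ) : Wd n a b j = Wd n' (a ^ κ) (b ^ κ) j := by
  induction j with
  | zero => rfl
  | succ j ih =>
    simp only [Wd, ih, h, zpow_mul, zpow_natCast]
    split_ifs <;> rfl

section

variable {G H : Type} [Group G] [Group H] {π : G →* H} {κ : ℕ} {n : ℤ → ℤ} {L n₀ : ℕ}

theorem exps_div (E : Exps n L n₀) (hκ : κ ∣ n₀) : ∃ n' : ℤ → ℤ, ∀ j, n j = κ * n' j := by
  have : ∀ j, ∃ t, n j = κ * t := fun j => (Int.natCast_dvd_natCast.2 hκ).trans (E.dvd j)
  choose n' hn' using this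
  exact ⟨n', hn'⟩

theorem KC.Wd_comm (K : KC π κ) (E : Exps n L n₀) (hκ : κ ∣ n₀) (a b t : G) (ht : π t = 1)
    (j : ℕ) : Commute (Wd n a b j) t := by
  obtain ⟨n', hn'⟩ := exps_div E hκ
  rw [Wd_pow hn']
  induction j with
  | zero => exact Commute.one_left t
  | succ j ih =>
    simp only [Wd]
    refine ih.mul_left (Commute.zpow_left ?_ _)
    split_ifs
    · exact K.pw a t ht
    · exact K.pw b t ht

theorem KC.Wd_lift (K : KC π κ) (E : Exps n L n₀) (hκ : κ ∣ n₀) {a b a' b' : G}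
    (ha : π a = π a') (hb : π b = π b') : Wd n a b L = Wd n a' b' L := by
  obtain ⟨n', hn'⟩ := exps_div E hκ
  let C : Subgroup G := Subgroup.centralizer (π.ker : Set G)
  have m1 : ∀ g : G, g ^ κ ∈ C := fun g =>
    Subgroup.mem_centralizer_iff.2 fun t ht => (K.pw g t ht).symm.eq
  have m2 : ∀ s : G, π s = 1 → s ∈ C := fun s hs =>
    Subgroup.mem_centralizer_iff.2 fun t ht => (K.ab t s ht hs).eq
  have cen : ∀ (s : G) (hs : π s = 1) (g : C), Commute (⟨s, m2 s hs⟩ : C) g := fun s hs g =>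
    Subtype.ext (Subgroup.mem_centralizer_iff.1 g.2 s hs)
  have hs : π ((a ^ κ)⁻¹ * a' ^ κ) = 1 := by simp [ha]
  have ht : π ((b ^ κ)⁻¹ * b' ^ κ) = 1 := by simp [hb]
  have key := Wd_central_aux n' (⟨a ^ κ, m1 a⟩ : C) ⟨b ^ κ, m1 b⟩ _ _ (cen _ hs) (cen _ ht) L
  have z : ∀ p : ℕ → Prop, ∀ [DecidablePred p], ∑ j ∈ (Finset.range L).filter p, n j = 0 →
      ∑ j ∈ (Finset.range L).filter p, n' j = 0 := by
    intro p _ h
    simp only [hn'] at h
    rw [← Finset.mul_sum] at h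
    have := K.pos
    exact (mul_eq_zero.1 h).resolve_left (by omega)
  rw [z _ E.sum0, z _ E.sum1, zpow_zero, zpow_zero, mul_one, mul_one] at key
  have key2 := congrArg C.subtype key
  rw [Wd_map, Wd_map] at key2
  simp only [map_mul, Subgroup.subtype_apply, mul_inv_cancel_left] at key2
  rw [Wd_pow hn', Wd_pow hn' a' b', key2]

end

theorem lift_rot2 {V : Type} {X : Sp V} {H : Type} [Group H] [MulAction H V] {U : Type}
    [MulAction H U] {M Λ : ℕ} {P : Apx X H U M} (R : Rot P Λ) (iso : X.Iso H)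
    (hΛ : 20 * M ≤ Λ) {x : V} (hx : ∀ u, x ≠ P.ω u)
    {G : Type} [Group G] (π : G →* H) (surj : Function.Surjective π) {κ : ℕ} (K : KC π κ)
    {n : ℤ → ℤ} {L n₀ : ℕ} (E : Exps n L n₀) (hκ : κ ∣ n₀) (F : H → H → G)
    (πF : ∀ a b, π (F a b) = 1)
    (hF : ∀ (g : G) a b, F (π g * a * (π g)⁻¹) (π g * b * (π g)⁻¹) = g * F a b * g⁻¹)
    (pair : U → H → H → Prop)
    (p1 : ∀ u, ∃ a b, pair u a b)
    (p2 : ∀ (g : H) u a b, pair u a b → pair (g • u) (g * a * g⁻¹) (g * b * g⁻¹))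
    (p3 : ∀ u a b a' b', pair u a b → pair u a' b' → ∃ g ∈ Subgroup.zpowers (Wd n a b L),
      a' = g * a * g⁻¹ ∧ b' = g * b * g⁻¹)
    (p4 : ∀ (g : H) u a b, pair u a b → (g ∈ R.G u ↔ g ∈ Subgroup.zpowers (Wd n a b L)))
    (p5 : ∀ u a b (k : ℤ), pair u a b → k ≠ 0 → Wd n a b L ^ k ≠ 1) :
    ∃ N : Subgroup G, N.Normal ∧ (∀ g ∈ N, π g ∈ R.N) ∧ (∀ h ∈ R.N, ∃ g ∈ N, π g = h) ∧
      (∀ g ∈ N, π g = 1 → g = 1) ∧
      (∀ u a b, pair u (π a) (π b) → Wd n a b L * (F (π a) (π b))⁻¹ ∈ N) := by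
  let _ := MulAction.compHom V π
  let _ := MulAction.compHom U π
  let S : U → Set G := fun u => {r | ∃ a b, pair u (π a) (π b) ∧
    r = Wd n a b L * (F (π a) (π b))⁻¹}
  have πS : ∀ a b : G, π (Wd n a b L * (F (π a) (π b))⁻¹) = Wd n (π a) (π b) L := by
    intro a b; simp [Wd_map, πF]
  have uniq : ∀ u, ∀ r ∈ S u, ∀ r' ∈ S u, r' = r := by
    rintro u r ⟨a, b, hp, rfl⟩ r' ⟨a', b', hp', rfl⟩
    obtain ⟨g, ⟨k, rfl⟩, h1, h2⟩ := p3 u _ _ _ _ hp hp'
    have e1 : Wd n a' b' L = Wd n a b L := by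
      rw [K.Wd_lift E hκ (a := a') (b := b') (a' := Wd n a b L ^ k * a * (Wd n a b L ^ k)⁻¹)
        (b' := Wd n a b L ^ k * b * (Wd n a b L ^ k)⁻¹) (by simpa [Wd_map] using h1)
        (by simpa [Wd_map] using h2), Wd_conj]
      group
    have e2 := hF (Wd n a b L ^ k) (π a) (π b)
    rw [((K.Wd_comm E hκ a b _ (πF (π a) (π b)) L).zpow_left k).eq, mul_inv_cancel_right,
      map_zpow, Wd_map] at e2
    rw [e1, h1, h2]
    simp only
    rw [e2]
  have single : ∀ u, ∃ a b, pair u (π a) (π b) ∧ Subgroup.closure (S u) =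
      Subgroup.zpowers (Wd n a b L * (F (π a) (π b))⁻¹) := by
    intro u
    obtain ⟨a, b, hp⟩ := p1 u
    obtain ⟨a, rfl⟩ := surj a
    obtain ⟨b, rfl⟩ := surj b
    refine ⟨a, b, hp, ?_⟩
    rw [Subgroup.zpowers_eq_closure]
    refine congrArg _ ?_
    ext r
    constructor
    · intro hr; exact uniq u _ ⟨a, b, hp, rfl⟩ r hr
    · rintro rfl; exact ⟨a, b, hp, rfl⟩
  have memG : ∀ u r, r ∈ Subgroup.closure (S u) → π r ∈ R.G u ∧ (π r = 1 → r = 1) := by
    intro u r hr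
    obtain ⟨a, b, hp, e⟩ := single u
    rw [e] at hr
    obtain ⟨k, rfl⟩ := hr
    simp only [map_zpow, πS]
    refine ⟨(p4 _ u _ _ hp).2 ⟨k, rfl⟩, fun h => ?_⟩
    by_cases hk : k = 0
    · simp [hk]
    · exact absurd h (p5 u _ _ k hp hk)
  let R' : Rot (P.comap π) Λ :=
    { G := fun u => Subgroup.closure (S u)
      conj := by
        intro g u r hr
        obtain ⟨a, b, hp, e⟩ := single u
        rw [e] at hr
        obtain ⟨k, rfl⟩ := hr
        show g * _ ^ k * g⁻¹ ∈ _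
        rw [← conj_zpow]
        refine Subgroup.zpow_mem _ (Subgroup.subset_closure ?_) k
        refine ⟨g * a * g⁻¹, g * b * g⁻¹, by simp only [map_mul, map_inv]; exact p2 (π g) u _ _ hp, ?_⟩
        rw [Wd_conj]
        simp only [map_mul, map_inv, hF]
        group
      fix := fun u r hr => R.fix u _ (memG u r hr).1
      rot := fun u r a hr h1 => R.rot u _ a (memG u r hr).1 (fun h => h1 ((memG u r hr).2 h)) }
  refine ⟨R'.N, inferInstance, ?_, ?_, ?_, ?_⟩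
  · intro g hg
    refine Subgroup.iSup_induction R'.G (C := fun g => π g ∈ R.N) hg ?_ ?_ ?_
    · intro u r hr; exact R.le_N u (memG u r hr).1
    · simp
    · intro a b ha hb; rw [map_mul]; exact mul_mem ha hb
  · intro h hh
    refine Subgroup.iSup_induction R.G (C := fun h => ∃ g ∈ R'.N, π g = h) hh ?_ ?_ ?_
    · intro u r hr
      obtain ⟨a, b, hp, e⟩ := single u
      obtain ⟨k, rfl⟩ := (p4 _ u _ _ hp).1 hr
      refine ⟨_ ^ k, R'.le_N u ?_, by rw [map_zpow, πS]⟩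
      show _ ∈ Subgroup.closure (S u)
      rw [e]; exact ⟨k, rfl⟩
    · exact ⟨1, one_mem _, map_one _⟩
    · rintro _ _ ⟨a, ha, rfl⟩ ⟨b, hb, rfl⟩; exact ⟨a * b, mul_mem ha hb, map_mul _ _ _⟩
  · intro g hg h1
    by_contra hne
    obtain ⟨k, hk⟩ := R'.mem_N_iff.1 hg
    cases k with
    | zero => exact hne hk.zero
    | succ k =>
      obtain ⟨u, r, hr, r1, -, ha⟩ := R'.green (fun g => iso (π g)) hΛ (x := x) hx hk hne
      refine R'.rot u r⁻¹ x (inv_mem hr) (inv_ne_one.2 r1) (P.mono ?_ (θ := 14 * M) (by omega))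
      have e : (r⁻¹ * g) • x = r⁻¹ • x := by
        show π (r⁻¹ * g) • x = π r⁻¹ • x
        rw [map_mul, h1, mul_one]
      rw [e] at ha; exact ha
  · intro u a b hp
    exact R'.le_N u (Subgroup.subset_closure ⟨a, b, hp, rfl⟩)

end Pool.Agent.P.MP_4b59b0_al.Cls
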