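import Pool.Agent.P.MP_4b59b0_al.Cls.Step

set_option autoImplicit false

namespace Pool.Agent.P.MP_4b59b0_al.Cls

open Sp

attribute [local instance] Stage.gG Stage.gH Stage.act

variable {Q : Type} [Group Q]

theorem stage0 (Q : Type) [Group Q] {e δ A m₀ L : ℕ} {n : ℤ → ℤ} (h1 : 1 ≤ δ) (hA : 1000 * δ ≤ A)
    (hm : 100 * δ ≤ m₀) : Nonempty (Stage Q e δ A m₀ L n) := by
  obtain ⟨X, csa, cyc, hinv, hpow⟩ := baseG Q
  refine ⟨{ G := ΓQ Q, H := FreeGroup Q, V := FreeGroup Q, φ := MonoidHom.id _,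
            π := SemidirectProduct.rightHom, ψ := ψF Q,
            X := X, x₀ := 1, φ_surj := Function.surjective_id,
            π_surj := SemidirectProduct.rightHom_surjective,
            πι := fun t => SemidirectProduct.rightHom_inl t, ker := ?_, inj := ?_,
            ψ_eq := fun _ => rfl, inv := hinv δ A h1 hA,
            csa := csa, cyc := cyc, rel := ?_ }⟩
  · intro g hg
    refine ⟨g.left, ?_⟩
    have hg' : g.right = 1 := hg
    have := SemidirectProduct.inl_left_mul_inr_right g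
    rw [hg', map_one, mul_one] at this
    exact this.symm
  · intro t ht
    exact SemidirectProduct.inl_injective (ht.trans (map_one _).symm)
  · intro a b hab hT
    exfalso
    apply hT
    intro x
    refine hm.trans (hpow _ x m₀ ?_)
    intro h; rw [h] at hab; exact hab (Commute.one_left _)

theorem Stage.rel_comm {e κ δ A m₀ L n₀ : ℕ} {n : ℤ → ℤ} (hκ : 0 < κ) (hQ : ∀ q : Q, q ^ κ = 1)
    (heQ : ∀ q : Q, q ^ e = q) (hdv : κ ∣ n₀) (E : Exps n L n₀) (S : Stage Q e δ A m₀ L n)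
    (a b : S.G) (h : Commute (vE e (S.π a) (S.π b)) (vE' e (S.π a) (S.π b))) :
    wE e n L a b = S.φ (ιQ Q (al (S.ψ (S.π a)) (S.ψ (S.π b)))) := by
  have hc : Commute (vE e (S.π a) (S.π b)) (S.π a) := by
    by_cases hv : vE e (S.π a) (S.π b) = 1
    · rw [hv]; exact Commute.one_left _
    · exact S.csa.mal _ _ hv h
  have h2 : vE' e (S.π a) (S.π b) = vE e (S.π a) (S.π b) := by
    rw [vE', mul_assoc, hc.eq, inv_mul_cancel_left]
  have e2 : S.ψ (vE e (S.π a) (S.π b)) = S.ψ (S.π a) * S.ψ (S.π b) := by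
    rw [map_vE, vE, heQ, heQ]
  have h1 : al (S.ψ (S.π a)) (S.ψ (S.π b)) = 1 := by
    rw [al, ← e2, if_neg]
    exact fun h5 => h5.2 (h5.1.mem S.cyc S.ψ hc)
  have K := kc_of S.φ S.π S.φ_surj S.ker hκ hQ
  rw [h1, map_one, map_one, wE, K.Wd_lift E hdv (a' := vE e a b) (b' := vE e a b) rfl
    (by rw [map_vE', map_vE, h2]), E.Wd_self]

theorem limitE (Q : Type) [Group Q] {e κ : ℕ} (he : 61 ≤ e) (hκ : 0 < κ)
    (hQ : ∀ q : Q, q ^ κ = 1) (heQ : ∀ q : Q, q ^ e = q) :
    ∃ (n : ℤ → ℤ) (L : ℕ) (N : Subgroup (ΓQ Q)), N.Normal ∧ (∀ γ ∈ N, ψQ Q γ = 1) ∧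
    (∀ t, ιQ Q t ∈ N → t = 1) ∧
    ∀ a b : ΓQ Q, (wE e n L a b)⁻¹ * ιQ Q (al (ψQ Q a) (ψQ Q b)) ∈ N := by
  obtain ⟨δ, A, m₀, L, n₀, n, h1, hA, hm, hdv, E, hstep⟩ := stepE Q he hκ hQ heQ
  obtain ⟨S₀⟩ := stage0 Q (e := e) (L := L) (n := n) h1 hA hm
  choose nx hk hd using hstep
  let S : ℕ → Stage Q e δ A m₀ L n := fun i => nx^[i] S₀
  have hS : ∀ i, S (i + 1) = nx (S i) := fun i => Function.iterate_succ_apply' nx i S₀
  have mono : Monotone fun i => (S i).φ.ker := by
    refine monotone_nat_of_le_succ fun i γ hγ => ?_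
    rw [hS]; exact hk _ γ hγ
  have mem : ∀ γ, γ ∈ (⨆ i, (S i).φ.ker) ↔ ∃ i, (S i).φ γ = 1 := fun γ =>
    Subgroup.mem_iSup_of_directed mono.directed_le
  refine ⟨n, L, ⨆ i, (S i).φ.ker, ⟨fun γ hγ g => ?_⟩, fun γ hγ => ?_, fun k hk => ?_,
    fun a b => ?_⟩
  · obtain ⟨i, hi⟩ := (mem _).1 hγ
    exact (mem _).2 ⟨i, by simp [hi]⟩
  · obtain ⟨i, hi⟩ := (mem _).1 hγ
    rw [← (S i).ψ_eq, hi, map_one, map_one]
  · obtain ⟨i, hi⟩ := (mem _).1 hk
    exact (S i).inj k hi
  · have small : ∀ (γ : ΓQ Q) (t i : ℕ),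
        (S i).X.d (S i).x₀ ((S i).π ((S i).φ γ) • (S i).x₀) ≤ t + 2 →
        ∃ j, (S j).X.d (S j).x₀ ((S j).π ((S j).φ γ) • (S j).x₀) ≤ 2 := by
      intro γ t
      induction t with
      | zero => intro i hi; exact ⟨i, hi⟩
      | succ t ih =>
        intro i hi
        apply ih (i + 1)
        have := hd (S i) γ
        rw [hS]; omega
    obtain ⟨j, hj⟩ := small (vE e a b ^ m₀) _ 0 (Nat.le_add_right _ _)
    refine (mem _).2 ⟨j, ?_⟩
    rw [map_mul, map_inv, inv_mul_eq_one, map_wE, ← (S j).ψ_eq, ← (S j).ψ_eq]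
    by_cases hc : Commute (vE e ((S j).π ((S j).φ a)) ((S j).π ((S j).φ b)))
      (vE' e ((S j).π ((S j).φ a)) ((S j).π ((S j).φ b)))
    · exact (S j).rel_comm hκ hQ heQ hdv E _ _ hc
    · refine (S j).rel _ _ hc fun hT => ?_
      have := hT (S j).x₀
      rw [map_pow, map_pow, map_vE, map_vE] at hj
      omega

theorem exists_Mx (Q : Type) [Group Q] [Finite Q] : ∃ s : Q, Mx s := by
  obtain ⟨s, hs⟩ := Finite.exists_max fun s : Q => Nat.card (Subgroup.zpowers s)
  refine ⟨s, fun c hc => ?_⟩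
  have h1 : Subgroup.zpowers s = Subgroup.zpowers c :=
    Subgroup.eq_of_le_of_card_ge (Subgroup.zpowers_le.2 hc) (hs c)
  rw [h1]; exact Subgroup.mem_zpowers c

omit [Group Q] in
theorem bs_self (s : Q) : bs s s = Multiplicative.ofAdd 1 := if_pos rfl

omit [Group Q] in
theorem bs_zpow {s : Q} {k : ℤ} (h : bs s ^ k = 1) : k = 0 := by
  have := congrArg (fun t : AQ Q => Multiplicative.toAdd (t s)) h
  simpa [bs_self] using this

omit [Group Q] in
theorem bs_inj {s r : Q} (h : bs s = bs r) : s = r := by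
  by_contra hne
  have h1 : bs s s = bs r s := congrFun h s
  rw [bs_self, bs, if_neg hne] at h1
  exact absurd (congrArg Multiplicative.toAdd h1) (by simp)

/-- The counterexample for a non-cyclic finite quotient. -/
theorem noncyclic (Q : Type) [Group Q] [Finite Q] (hQ : ¬ IsCyclic Q) (n : ℕ) (hn : 2 ≤ n) :
    ∃ (v : FreeGroup (Fin n)) (G : Type) (_ : Group G) (ψ : G →* Q), Function.Surjective ψ ∧
      (∀ a : G, ψ a = 1 ↔ ∀ (f : Fin n → G) (i : Fin n),
        FreeGroup.lift (Function.update f i (f i * a)) v = FreeGroup.lift f v) ∧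
      ¬ ((Subgroup.closure (Set.range (fun f : Fin n → G => FreeGroup.lift f v)) : Subgroup G)
        : Set G).Finite := by
  have hκ : 0 < Nat.card Q := Nat.card_pos
  have hp : ∀ q : Q, q ^ Nat.card Q = 1 := fun q => pow_card_eq_one'
  obtain ⟨e, he, heQ⟩ : ∃ e, 61 ≤ e ∧ ∀ q : Q, q ^ e = q :=
    ⟨Nat.card Q * 60 + 1, by omega, fun q => by rw [pow_succ, pow_mul, hp, one_pow, one_mul]⟩
  obtain ⟨m, L, N, hN, hψ, hz, hw⟩ := limitE Q he hκ hp heQ
  let ψ : ΓQ Q ⧸ N →* Q := QuotientGroup.lift N (ψQ Q) hψ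
  let ι : AQ Q →* ΓQ Q ⧸ N := (QuotientGroup.mk' N).comp (ιQ Q)
  have ιinj : Function.Injective ι :=
    (injective_iff_map_eq_one ι).2 fun t ht => hz t ((QuotientGroup.eq_one_iff _).1 ht)
  have surj : Function.Surjective ψ := fun q =>
    ⟨((SemidirectProduct.inr (FreeGroup.of q) : ΓQ Q) : ΓQ Q ⧸ N),
      (FreeGroup.lift_apply_of : FreeGroup.lift id (FreeGroup.of q) = id q)⟩
  let i0 : Fin n := ⟨0, by omega⟩
  let i1 : Fin n := ⟨1, by omega⟩
  have i01 : i0 ≠ i1 := fun h => absurd (congrArg Fin.val h) (by simp [i0, i1])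
  have val : ∀ f : Fin n → ΓQ Q ⧸ N,
      FreeGroup.lift f (wE e m L (FreeGroup.of i0) (FreeGroup.of i1)) =
      ι (al (ψ (f i0)) (ψ (f i1))) := by
    intro f
    rw [map_wE, FreeGroup.lift_apply_of, FreeGroup.lift_apply_of]
    obtain ⟨a, ha⟩ := QuotientGroup.mk_surjective (f i0)
    obtain ⟨b, hb⟩ := QuotientGroup.mk_surjective (f i1)
    rw [← ha, ← hb]
    have := QuotientGroup.eq.2 (hw a b)
    exact (map_wE (QuotientGroup.mk' N) e m L a b).symm.trans this
  obtain ⟨s, hs⟩ := exists_Mx Q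
  obtain ⟨x, hx⟩ : ∃ x : Q, x ∉ Subgroup.zpowers s := by
    by_contra hc
    push Not at hc
    exact hQ ⟨⟨s, hc⟩⟩
  obtain ⟨a, ha⟩ := surj x
  obtain ⟨b, hb⟩ := surj (x⁻¹ * s)
  let f₀ : Fin n → ΓQ Q ⧸ N := Function.update (fun _ => a) i1 b
  have f0 : ψ (f₀ i0) = x := by simp only [f₀]; rw [Function.update_of_ne i01, ha]
  have f1 : ψ (f₀ i1) = x⁻¹ * s := by simp only [f₀]; rw [Function.update_self, hb]
  have als : al x (x⁻¹ * s) = bs s := by
    rw [al, mul_inv_cancel_left, if_pos ⟨hs, hx⟩]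
  refine ⟨wE e m L (FreeGroup.of i0) (FreeGroup.of i1), ΓQ Q ⧸ N, inferInstance, ψ, surj,
    fun g => ⟨fun hg f i => ?_, fun hg => ?_⟩, ?_⟩
  · have : ∀ j, ψ (Function.update f i (f i * g) j) = ψ (f j) := by
      intro j
      by_cases h : j = i
      · subst h; rw [Function.update_self, map_mul, hg, mul_one]
      · rw [Function.update_of_ne h]
    rw [val, val, this, this]
  · have h1 := hg f₀ i1
    rw [val, val, Function.update_of_ne i01, Function.update_self, map_mul, f0, f1, als] at h1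
    have h2 := ιinj h1
    rw [al, ← mul_assoc, mul_inv_cancel_left] at h2
    split_ifs at h2
    · exact mul_eq_left.1 (bs_inj h2)
    · have := bs_zpow (s := s) (k := 1) (by rw [zpow_one, ← h2])
      omega
  · apply Set.infinite_of_injective_forall_mem (f := fun k : ℤ => ι (bs s) ^ k)
    · intro k l hkl
      have : ι (bs s ^ (k - l)) = ι 1 := by
        simp only at hkl
        rw [map_zpow, zpow_sub, hkl, mul_inv_cancel, map_one]
      have := bs_zpow (ιinj this); omega
    · intro k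
      refine Subgroup.zpow_mem _ (Subgroup.subset_closure ?_) k
      exact ⟨f₀, by simp only [val]; rw [f0, f1, als]⟩

/-- The cyclic case. -/
theorem cyclic (Q : Type) [Group Q] [Finite Q] (hQ : IsCyclic Q) (n : ℕ) (v : FreeGroup (Fin n))
    (G : Type) [Group G] (ψ : G →* Q) (surj : Function.Surjective ψ)
    (hψ : ∀ a : G, ψ a = 1 → ∀ (f : Fin n → G) (i : Fin n),
        FreeGroup.lift (Function.update f i (f i * a)) v = FreeGroup.lift f v) :
    ((Subgroup.closure (Set.range (fun f : Fin n → G => FreeGroup.lift f v)) : Subgroup G)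
        : Set G).Finite := by
  classical
  obtain ⟨⟨c, hc⟩⟩ := hQ
  obtain ⟨a, rfl⟩ := surj c
  have inv : ∀ f f' : Fin n → G, (∀ i, ψ (f i) = ψ (f' i)) →
      FreeGroup.lift f v = FreeGroup.lift f' v := by
    intro f f' h
    have key : ∀ s : Finset (Fin n),
        FreeGroup.lift (fun i => if i ∈ s then f' i else f i) v = FreeGroup.lift f v := by
      intro s
      induction s using Finset.induction_on with
      | empty => simp
      | insert i s hi ih =>
        have h1 := hψ ((f i)⁻¹ * f' i) (by rw [map_mul, map_inv, h, inv_mul_cancel])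
          (fun j => if j ∈ s then f' j else f j) i
        rw [← ih, ← h1]
        refine congrArg (fun g : Fin n → G => FreeGroup.lift g v) (funext fun j => ?_)
        by_cases hj : j = i
        · subst hj; simp [hi]
        · simp [hj]
    simpa using (key Finset.univ).symm
  let θ : Multiplicative ℤ →* G := zpowersHom G a
  let w : (Fin n → Multiplicative ℤ) →* Multiplicative ℤ :=
    { toFun := fun k => FreeGroup.lift k v
      map_one' := by
        have : FreeGroup.lift (1 : Fin n → Multiplicative ℤ) = 1 := by ext i; simp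
        rw [this]; rfl
      map_mul' := fun k l => by
        have : FreeGroup.lift (k * l) = FreeGroup.lift k * FreeGroup.lift l := by ext i; simp
        rw [this]; rfl }
  have hw : ∀ k, θ (w k) = FreeGroup.lift (fun i => θ (k i)) v := by
    intro k
    have : θ.comp (FreeGroup.lift k) = FreeGroup.lift (fun i => θ (k i)) := by ext i; simp
    exact DFunLike.congr_fun this v
  have one : ∀ k, (θ.comp w) k ^ Nat.card Q = 1 := by
    intro k
    rw [← map_pow, MonoidHom.comp_apply, hw, inv _ (fun i => θ ((1 : Fin n → Multiplicative ℤ) i)),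
      ← hw, map_one, map_one]
    intro i
    rw [Pi.pow_apply, map_pow, map_pow, pow_card_eq_one', Pi.one_apply, map_one, map_one]
  have le : Subgroup.closure (Set.range (fun f : Fin n → G => FreeGroup.lift f v)) ≤
      (θ.comp w).range := by
    rw [Subgroup.closure_le]
    rintro _ ⟨f, rfl⟩
    have : ∀ i, ∃ k : ℤ, ψ a ^ k = ψ (f i) := fun i => hc (ψ (f i))
    choose k hk using this
    refine ⟨fun i => Multiplicative.ofAdd (k i), ?_⟩
    rw [MonoidHom.comp_apply, hw]
    exact inv _ _ fun i => by simp [θ, hk]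
  refine Set.Finite.subset ?_ le
  by_cases ha : IsOfFinOrder a
  · refine ha.finite_zpowers.subset ?_
    rintro _ ⟨k, rfl⟩
    exact ⟨Multiplicative.toAdd (w k), rfl⟩
  · refine (Set.finite_singleton 1).subset ?_
    rintro _ ⟨k, rfl⟩
    have h1 := one k
    have h2 : (θ.comp w) k = a ^ Multiplicative.toAdd (w k) := rfl
    rw [h2] at h1 ⊢
    by_cases h0 : Multiplicative.toAdd (w k) = 0
    · rw [h0, zpow_zero]; rfl
    · refine absurd (isOfFinOrder_iff_zpow_eq_one.2 ⟨Multiplicative.toAdd (w k) * Nat.card Q, ?_, ?_⟩) ha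
      · exact mul_ne_zero h0 (by have : 0 < Nat.card Q := Nat.card_pos; omega)
      · rw [zpow_mul, zpow_natCast, h1]

end Pool.Agent.P.MP_4b59b0_al.Cls
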