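import Pool.Agent.P.MP_4b59b0_al.Step
import Pool.Agent.P.MP_4b59b0_al.Cls.Cyc
import Pool.Agent.P.MP_4b59b0_al.Cls.Lift

set_option autoImplicit false

namespace Pool.Agent.P.MP_4b59b0_al.Cls

open Sp

attribute [local instance] ConeOff.act

/-- The free abelian group of integer functions on `Q`, written multiplicatively. -/
abbrev AQ (Q : Type) := Q → Multiplicative ℤ

/-- The action of `Q` on `AQ Q` induced by conjugation. -/
def cj (Q : Type) [Group Q] : Q →* MulAut (AQ Q) where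
  toFun q :=
    { toFun := fun t r => t (q⁻¹ * r * q)
      invFun := fun t r => t (q * r * q⁻¹)
      left_inv := fun t => funext fun r => congrArg t (by group)
      right_inv := fun t => funext fun r => congrArg t (by group)
      map_mul' := fun _ _ => rfl }
  map_one' := MulEquiv.ext fun t => funext fun r => congrArg t (by group)
  map_mul' p q := MulEquiv.ext fun t => funext fun r => congrArg t (by group)

def ψF (Q : Type) [Group Q] : FreeGroup Q →* Q := FreeGroup.lift id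

/-- The initial group. -/
abbrev ΓQ (Q : Type) [Group Q] := AQ Q ⋊[(cj Q).comp (ψF Q)] FreeGroup Q

def ψQ (Q : Type) [Group Q] : ΓQ Q →* Q := (ψF Q).comp SemidirectProduct.rightHom

def ιQ (Q : Type) [Group Q] : AQ Q →* ΓQ Q := SemidirectProduct.inl

open Classical in
/-- The basis element of `AQ Q` at `s`. -/
noncomputable def bs {Q : Type} (s : Q) : AQ Q :=
  fun r => if r = s then Multiplicative.ofAdd 1 else 1

/-- `s` generates a maximal cyclic subgroup. -/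
def Mx {Q : Type} [Group Q] (s : Q) : Prop :=
  ∀ c, s ∈ Subgroup.zpowers c → c ∈ Subgroup.zpowers s

open Classical in
/-- The prescribed value of the word. -/
noncomputable def al {Q : Type} [Group Q] (x y : Q) : AQ Q :=
  if Mx (x * y) ∧ x ∉ Subgroup.zpowers (x * y) then bs (x * y) else 1

def vE {G : Type} [Group G] (e : ℕ) (a b : G) : G := a ^ e * b ^ e

def vE' {G : Type} [Group G] (e : ℕ) (a b : G) : G := a⁻¹ * vE e a b * a

def wE {G : Type} [Group G] (e : ℕ) (n : ℤ → ℤ) (L : ℕ) (a b : G) : G :=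
  Wd n (vE e a b) (vE' e a b) L

theorem map_vE {G G' : Type} [Group G] [Group G'] (f : G →* G') (e : ℕ) (a b : G) :
    f (vE e a b) = vE e (f a) (f b) := by simp [vE]

theorem map_vE' {G G' : Type} [Group G] [Group G'] (f : G →* G') (e : ℕ) (a b : G) :
    f (vE' e a b) = vE' e (f a) (f b) := by simp [vE', map_vE]

theorem map_wE {G G' : Type} [Group G] [Group G'] (f : G →* G') (e : ℕ) (n : ℤ → ℤ) (L : ℕ)
    (a b : G) : f (wE e n L a b) = wE e n L (f a) (f b) := by simp [wE, Wd_map, map_vE, map_vE']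

section

variable {Q : Type} [Group Q]

theorem ι_conj (γ : ΓQ Q) (t : AQ Q) : γ * ιQ Q t * γ⁻¹ = ιQ Q (cj Q (ψQ Q γ) t) := by
  have h1 := SemidirectProduct.inl_aut (φ := (cj Q).comp (ψF Q)) γ.right t
  have h2 : γ = SemidirectProduct.inl γ.left * SemidirectProduct.inr γ.right :=
    (SemidirectProduct.inl_left_mul_inr_right γ).symm
  have h3 : cj Q (ψQ Q γ) t = ((cj Q).comp (ψF Q)) γ.right t := rfl
  rw [h3]
  unfold ιQ
  generalize ((cj Q).comp (ψF Q)) γ.right t = t' at h1 ⊢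
  rw [map_inv] at h1
  rw [h2, mul_inv_rev, mul_assoc, mul_assoc, ← mul_assoc (SemidirectProduct.inl t),
    ← mul_assoc (SemidirectProduct.inr γ.right), ← mul_assoc (SemidirectProduct.inr γ.right),
    ← h1, ← map_inv, ← map_mul, ← map_mul, mul_comm t', mul_inv_cancel_left]

theorem cj_bs (q s : Q) : cj Q q (bs s) = bs (q * s * q⁻¹) := by
  funext r
  show bs s (q⁻¹ * r * q) = bs (q * s * q⁻¹) r
  unfold bs
  by_cases h : r = q * s * q⁻¹
  · rw [if_pos h, if_pos (by rw [h]; group)]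
  · rw [if_neg h, if_neg (fun h2 => h (by rw [← h2]; group))]

theorem mem_zp_conj {G : Type} [Group G] (g : G) {a s : G} (h : a ∈ Subgroup.zpowers s) :
    g * a * g⁻¹ ∈ Subgroup.zpowers (g * s * g⁻¹) := by
  obtain ⟨k, rfl⟩ := h
  exact ⟨k, conj_zpow⟩

theorem Mx.conj {s : Q} (h : Mx s) (g : Q) : Mx (g * s * g⁻¹) := by
  intro c hc
  have h1 := mem_zp_conj g⁻¹ hc
  have e : g⁻¹ * (g * s * g⁻¹) * g⁻¹⁻¹ = s := by group
  rw [e] at h1
  have h2 := mem_zp_conj g (h _ h1)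
  have e' : g * (g⁻¹ * c * g⁻¹⁻¹) * g⁻¹ = c := by group
  rwa [e'] at h2

variable {H : Type} [Group H]

theorem Mx.mem (cyc : Cyc H) (ψ : H →* Q) {u a : H} (h : Mx (ψ u)) (hc : Commute u a) :
    ψ a ∈ Subgroup.zpowers (ψ u) := by
  obtain ⟨c, h1, h2⟩ := cyc.map ψ hc
  exact (Subgroup.zpowers_le.2 (h c h1)) h2

/-- The condition under which a pair gets a nontrivial value. -/
def Cd (ψ : H →* Q) (u u' : H) : Prop :=
  Mx (ψ u) ∧ ∃ a, u' = a⁻¹ * u * a ∧ ψ a ∉ Subgroup.zpowers (ψ u)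

theorem Cd.conj {ψ : H →* Q} {u u' : H} (h : Cd ψ u u') (g : H) :
    Cd ψ (g * u * g⁻¹) (g * u' * g⁻¹) := by
  obtain ⟨h1, a, rfl, h2⟩ := h
  refine ⟨by rw [map_mul, map_mul, map_inv]; exact h1.conj _, g * a * g⁻¹, by group, fun h => h2 ?_⟩
  have h3 := mem_zp_conj (ψ g)⁻¹ h
  have e : ∀ b : H, (ψ g)⁻¹ * ψ (g * b * g⁻¹) * (ψ g)⁻¹⁻¹ = ψ b := by
    intro b; rw [map_mul, map_mul, map_inv]; group
  rwa [e, e] at h3

theorem Cd_conj (ψ : H →* Q) (u u' g : H) : Cd ψ (g * u * g⁻¹) (g * u' * g⁻¹) ↔ Cd ψ u u' := by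
  refine ⟨fun h => ?_, fun h => h.conj g⟩
  have h1 := h.conj g⁻¹
  have e : ∀ b : H, g⁻¹ * (g * b * g⁻¹) * g⁻¹⁻¹ = b := fun b => by group
  rwa [e, e] at h1

theorem Cd_iff (cyc : Cyc H) (ψ : H →* Q) (u a : H) :
    Cd ψ u (a⁻¹ * u * a) ↔ Mx (ψ u) ∧ ψ a ∉ Subgroup.zpowers (ψ u) := by
  constructor
  · rintro ⟨h1, a', e, h2⟩
    refine ⟨h1, fun h => h2 ?_⟩
    have hc : Commute u (a' * a⁻¹) := by
      have : u = a * (a'⁻¹ * u * a') * a⁻¹ := by rw [← e]; group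
      show u * (a' * a⁻¹) = a' * a⁻¹ * u
      conv_rhs => rw [this]
      group
    have := mul_mem (h1.mem cyc ψ hc) h
    rwa [← map_mul, inv_mul_cancel_right] at this
  · rintro ⟨h1, h2⟩
    exact ⟨h1, a, rfl, h2⟩

end

/-- One stage of the construction. -/
structure Stage (Q : Type) [Group Q] (e δ A m₀ L : ℕ) (n : ℤ → ℤ) where
  G : Type
  H : Type
  V : Type
  [gG : Group G]
  [gH : Group H]
  [act : MulAction H V]
  φ : ΓQ Q →* G
  π : G →* H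
  ψ : H →* Q
  X : Sp V
  x₀ : V
  φ_surj : Function.Surjective φ
  π_surj : Function.Surjective π
  πι : ∀ t, π (φ (ιQ Q t)) = 1
  ker : ∀ g, π g = 1 → ∃ t, g = φ (ιQ Q t)
  inj : ∀ t, φ (ιQ Q t) = 1 → t = 1
  ψ_eq : ∀ γ, ψ (π (φ γ)) = ψQ Q γ
  inv : Inv X H δ A
  csa : CSA H
  cyc : Cyc H
  rel : ∀ a b : G, ¬ Commute (vE e (π a) (π b)) (vE' e (π a) (π b)) →
    ¬ X.Mv (vE e (π a) (π b) ^ m₀) (100 * δ) →
    wE e n L a b = φ (ιQ Q (al (ψ (π a)) (ψ (π b))))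

attribute [local instance] Stage.gG Stage.gH Stage.act

theorem kc_of {Q G H : Type} [Group Q] [Group G] [Group H] (φ : ΓQ Q →* G) (π : G →* H)
    (surj : Function.Surjective φ) (ker : ∀ g, π g = 1 → ∃ t, g = φ (ιQ Q t)) {κ : ℕ}
    (hκ : 0 < κ) (hQ : ∀ q : Q, q ^ κ = 1) : KC π κ := by
  refine ⟨hκ, fun g t ht => ?_, fun s t hs ht => ?_⟩
  · obtain ⟨γ, rfl⟩ := surj g
    obtain ⟨t, rfl⟩ := ker t ht
    have h1 := ι_conj (γ ^ κ) t
    rw [map_pow (ψQ Q), hQ, map_one, MulAut.one_apply, mul_inv_eq_iff_eq_mul] at h1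
    rw [← map_pow]
    exact Commute.map h1 φ
  · obtain ⟨s, rfl⟩ := ker s hs
    obtain ⟨t, rfl⟩ := ker t ht
    exact ((Commute.all s t).map (ιQ Q)).map φ

section aux

variable {V : Type} {X : Sp V} {H : Type} [Group H] [MulAction H V] {U : Type} [MulAction H U]
  {δ A : ℕ} {Y : U → Set V} {δ₀ K ε s ρ M : ℕ}

theorem adm_of_fixE (C : ConeOff X H Y δ₀ K ε s ρ M) (inv : Inv X H δ A) (inv₁ : Inv C.Z H δ A)
    (csa : CSA H) {n : ℤ → ℤ} {L m₀ e κ DT : ℕ} (he : 61 ≤ e) (hκ : 0 < κ)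
    (hDT : 2 * (e * (2 * A + 200 * δ)) + 3 * A + 207 * δ ≤ DT)
    (E : Exps n L (κ * m₀ * (10 * M + 100 * ε + 5 * δ))) {a b : H}
    (hab : ¬ Commute (vE e a b) (vE' e a b)) {u : U} (hu : vE e a b • u = u)
    (hv : X.Mv (vE e a b ^ m₀) (100 * δ)) :
    Adm C.P n DT (vE e a b) (vE' e a b) := by
  have hab' : ¬ Commute a b := by
    intro h
    apply hab
    have : Commute (vE e a b) a := by
      unfold vE
      exact ((Commute.refl a).pow_left _).mul_left (h.symm.pow_left _)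
    unfold vE'
    exact (this.inv_right.mul_right (Commute.refl _)).mul_right this
  have hv1 : vE e a b ≠ 1 := by
    intro h; rw [h] at hab; exact hab (Commute.one_left _)
  have rot : ∀ j c, ¬ C.P.Ang u c (vE e a b ^ n j • c) (10 * M) := by
    intro j c
    obtain ⟨t, ht⟩ := E.dvd j
    have ht0 : t ≠ 0 := by rintro rfl; exact E.ne j (by simpa using ht)
    have e1 : vE e a b ^ n j = (vE e a b ^ m₀) ^ (κ * (10 * M + 100 * ε + 5 * δ : ℕ) * t : ℤ) := by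
      rw [← zpow_natCast, ← zpow_mul, ht]; congr 1; push_cast; ring
    have h1 : X.Mv (vE e a b ^ n j) (10 * M + 100 * ε) := by
      rw [e1]
      refine hv.zpow inv.iso inv.hyp inv.pos ?_
      rw [Int.natAbs_mul, Int.natAbs_mul, Int.natAbs_natCast, Int.natAbs_natCast]
      have : 1 * (10 * M + 100 * ε + 5 * δ) * 1 ≤ κ * (10 * M + 100 * ε + 5 * δ) * t.natAbs :=
        Nat.mul_le_mul (Nat.mul_le_mul_right _ hκ) (by omega)
      omega
    refine C.rot _ u _ _ c ?_ (fun y _ => h1 y) le_rfl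
    exact MulAction.mem_stabilizer_iff.1
      (Subgroup.zpow_mem _ (MulAction.mem_stabilizer_iff.2 hu) _)
  have hw : ∀ k : ℤ, vE e a b ^ k • C.P.ω u = C.P.ω u := by
    intro k
    rw [← C.P.ω_smul]; congr 1
    exact MulAction.mem_stabilizer_iff.1
      (Subgroup.zpow_mem _ (MulAction.mem_stabilizer_iff.2 hu) _)
  refine ⟨hab, u, a⁻¹ • u, hu, by rw [vE', mul_smul, mul_smul, smul_inv_smul, hu], ?_, rot, ?_⟩
  · obtain ⟨p, pa, pb⟩ := dlE inv₁ csa hab' he (q := C.P.ω u) (ε := 0) (by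
      have := hw 1
      rw [zpow_one] at this
      rw [show a ^ e * b ^ e = vE e a b from rfl, this, C.Z.d_self])
    have h1 : C.Z.d p (vE e a b • p) ≤ 2 * (e * (2 * A + 200 * δ)) := by
      have := C.iso.disp_mul (a ^ e) (b ^ e) p
      have := C.iso.disp_pow a p e; have := C.iso.disp_pow b p e
      have : e * C.Z.d p (a • p) ≤ e * (2 * A + 200 * δ) := Nat.mul_le_mul_left _ (by omega)
      have : e * C.Z.d p (b • p) ≤ e * (2 * A + 200 * δ) := Nat.mul_le_mul_left _ (by omega)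
      unfold vE; omega
    have h2 := inv₁.jbig (g := vE e a b ^ n 0) hv1 ((Commute.refl _).zpow_left _) h1 (C.P.ω u)
    rw [hw, C.Z.d_self] at h2
    have h3 := (C.P.bgi (fun h => rot 0 p (C.P.mono h (by omega)))).1
    have h4 := C.iso (vE e a b ^ n 0) (C.P.ω u) p
    rw [hw] at h4
    have h5 := C.iso.disp_move a (C.P.ω u) p
    have h6 := C.Z.symm p (C.P.ω u)
    rw [C.P.ω_smul, C.iso.disp_inv]
    unfold Bt at h3; omega
  · intro j c h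
    have h1 := C.P.smul a h
    have e2 : a • vE' e a b ^ n j • c = vE e a b ^ n j • a • c := by
      have := conj_zpow (a := a⁻¹) (b := vE e a b) (i := n j)
      rw [inv_inv] at this
      rw [vE', this, mul_smul, mul_smul, smul_inv_smul]
    rw [smul_inv_smul, e2] at h1
    exact rot j _ h1

end aux

theorem stepE (Q : Type) [Group Q] {e κ : ℕ} (he : 61 ≤ e) (hκ : 0 < κ) (hQ : ∀ q : Q, q ^ κ = 1)
    (heQ : ∀ q : Q, q ^ e = q) :
    ∃ (δ A m₀ L n₀ : ℕ) (n : ℤ → ℤ), 1 ≤ δ ∧ 1000 * δ ≤ A ∧ 100 * δ ≤ m₀ ∧ κ ∣ n₀ ∧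
    Exps n L n₀ ∧ ∀ S : Stage Q e δ A m₀ L n, ∃ S' : Stage Q e δ A m₀ L n,
      (∀ γ, S.φ γ = 1 → S'.φ γ = 1) ∧ ∀ γ, 2 * S'.X.d S'.x₀ (S'.π (S'.φ γ) • S'.x₀) ≤
        S.X.d S.x₀ (S.π (S.φ γ) • S.x₀) + 2 := by
  classical
  obtain ⟨δ₀, K, hcone⟩ := exists_coneOff
  obtain ⟨δ, hδ⟩ : ∃ δ, δ = 2 * δ₀ + 2 := ⟨_, rfl⟩
  obtain ⟨a₀, ρ₀, hinv⟩ := coneInv δ K
  obtain ⟨ρ₁, hρ₁⟩ : ∃ ρ, ρ = ρ₀ + 1000 * δ := ⟨_, rfl⟩
  obtain ⟨A, hA⟩ : ∃ A, A = 2 * ρ₁ + a₀ := ⟨_, rfl⟩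
  obtain ⟨ε₁, hε₁⟩ : ∃ t, t = 10 * A + 10000 * δ := ⟨_, rfl⟩
  obtain ⟨s₁, hs₁⟩ : ∃ t, t = 100 * ε₁ := ⟨_, rfl⟩
  obtain ⟨M₁, hM₁⟩ := hcone ε₁ s₁ ρ₁ (by omega) (by omega)
  obtain ⟨DT, hDT⟩ : ∃ t, t = 2 * (e * (2 * A + 200 * δ)) + 3 * A + 207 * δ := ⟨_, rfl⟩
  obtain ⟨ε₂, hrel⟩ := relator δ DT (by omega)
  obtain ⟨s₂, hs₂⟩ : ∃ t, t = 100 * ε₂ + A + 100 * δ := ⟨_, rfl⟩
  obtain ⟨D', hD'⟩ : ∃ t, t = 2 * A + 3000 * δ := ⟨_, rfl⟩
  obtain ⟨ρ₂, hρ₂⟩ : ∃ t, t = ρ₀ + 1000 * δ + 3 * D' := ⟨_, rfl⟩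
  obtain ⟨M₂, hM₂⟩ := hcone ε₂ s₂ ρ₂ (by omega) (by omega)
  obtain ⟨D'', hD''⟩ : ∃ t, t = 3 * D' * 2 ^ (3 * D') * s₂ := ⟨_, rfl⟩
  obtain ⟨Θ, hΘ⟩ : ∃ t, t = 100 * (2 * (e * D'') + ε₂) := ⟨_, rfl⟩
  obtain ⟨B₂, hB₂⟩ : ∃ t, t = 2 ^ ρ₂ * s₂ + Θ + 2 * M₂ := ⟨_, rfl⟩
  obtain ⟨B₁, hB₁⟩ : ∃ t,
    t = 2 ^ ρ₁ * s₁ + 100 * (300 * δ * 2 ^ (300 * δ) * s₁ + ε₁) + 2 * M₁ + 1 := ⟨_, rfl⟩
  obtain ⟨i₀, hi₀⟩ : ∃ t, t = 100 * δ * B₁ * B₂ + 100 * δ := ⟨_, rfl⟩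
  obtain ⟨m₀, hm₀⟩ : ∃ t, t = 2 ^ i₀ := ⟨_, rfl⟩
  have hm₀' : i₀ < m₀ := hm₀ ▸ Nat.lt_two_pow_self
  obtain ⟨Λ, hΛ⟩ : ∃ t, t = 100 * M₂ + 2 * Θ := ⟨_, rfl⟩
  obtain ⟨L', hL'⟩ : ∃ t, t = Λ + 100 * ε₂ + DT + 4 := ⟨_, rfl⟩
  obtain ⟨n, E⟩ := exists_exps (κ * m₀ * (10 * M₁ + 100 * ε₁ + 5 * δ)) L'
    (Nat.mul_pos (Nat.mul_pos hκ (by omega)) (by omega)) (by omega)
  have hdv : κ ∣ κ * m₀ * (10 * M₁ + 100 * ε₁ + 5 * δ) := by
    rw [mul_assoc]; exact dvd_mul_right _ _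
  refine ⟨δ, A, m₀, 2 * L', _, n, by omega, by omega, by omega, hdv, E, fun S => ?_⟩
  have inv := S.inv
  have csa := S.csa
  obtain ⟨U₁, _, Y₁, fam₁, eqv₁, st1, st2, fix2, cover⟩ := type1 inv csa
  rw [← hε₁] at fam₁
  obtain ⟨C₁⟩ := hM₁ _ S.X S.H U₁ Y₁ fam₁ inv.iso eqv₁
  have inv₁ : Inv C₁.Z S.H δ A := (hinv _ S.X S.H U₁ Y₁ δ₀ ε₁ s₁ ρ₁ M₁ A ρ₁ C₁ (by omega) inv
    csa (by omega) (by omega) st1 st2 (Or.inl le_rfl)).mono (by omega)
  obtain ⟨U₂, _, Y₂, pair, fam₂, eqv₂, p1, padm, p2, p3, p4, p5, st2'⟩ :=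
    hrel n (2 * L') _ M₁ E (by omega) _ C₁.Z S.H U₁ C₁.P C₁.iso inv₁.hyp csa st1 fix2
  obtain ⟨C₂⟩ := hM₂ _ C₁.Z S.H U₂ Y₂ fam₂ C₁.iso eqv₂
  have st1' : ∀ (u : U₂) (g h : S.H), g • u = u → h • u = u → Commute g h := by
    intro u g h hg hh
    obtain ⟨a, b, hp⟩ := p1 u
    obtain ⟨k, rfl⟩ := (p4 g u a b hp).1 hg
    obtain ⟨l, rfl⟩ := (p4 h u a b hp).1 hh
    exact Commute.zpow_zpow_self _ _ _
  have rot₂ : ∀ (u : U₂) (h : S.H) (a : C₂.W), h ≠ 1 → h • u = u →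
      ¬ C₂.P.Ang u a (h • a) Λ := by
    intro u h c h1 hh
    obtain ⟨a, b, hp⟩ := p1 u
    obtain ⟨k, rfl⟩ := (p4 h u a b hp).1 hh
    refine C₂.rot _ u (2 * L') _ c hh (p5 u a b k hp ?_) (by omega)
    rintro rfl; exact h1 (zpow_zero _)
  have inv₂ : Inv C₂.Z S.H δ A := (hinv _ C₁.Z S.H U₂ Y₂ δ₀ ε₂ s₂ ρ₂ M₂ A (101 * δ) C₂ (by omega)
    inv₁ csa (by omega) (by omega) st1' st2' (Or.inr ⟨le_rfl, fun u h a h1 hh h2 =>
      rot₂ u h a h1 hh (C₂.P.mono h2 (by omega))⟩)).mono (by omega)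
  let R : Rot C₂.P Λ :=
    { G := fun u => MulAction.stabilizer S.H u
      conj := fun g u r hr => by
        rw [MulAction.mem_stabilizer_iff] at *
        rw [mul_smul, inv_smul_smul, mul_smul, hr]
      fix := fun u r hr => hr
      rot := fun u r a hr h1 => rot₂ u r a h1 hr }
  have p5' : ∀ u a b (k : ℤ), pair u a b → k ≠ 0 → Wd n a b (2 * L') ^ k ≠ 1 := by
    intro u a b k hp hk h
    obtain ⟨y, hy⟩ := fam₂.ne u
    have := p5 u a b k hp hk y hy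
    rw [h, one_smul, C₁.Z.d_self] at this; omega
  obtain ⟨V', _, X', pr, inv', csa', prs, pre, prle, prex, priso⟩ :=
    R.quot (C₂.ι (C₁.ι S.x₀)) C₂.hyp (by omega) inv₂ csa (by omega) C₂.sep (by omega) (fun u g h => h) (fun u => by
      obtain ⟨a, b, hp⟩ := p1 u
      refine ⟨Wd n a b (2 * L'), (p4 _ u a b hp).2 (Subgroup.mem_zpowers _), ?_⟩
      simpa using p5' u a b 1 hp one_ne_zero)
  have cyc' : Cyc (S.H ⧸ R.N) :=
    cyc_quot (R := R) (δ := δ) (A := A) (ρ := ρ₂)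
      { V' := V', X' := X', pr := pr, surj := prs, eqv := pre, le := prle, ex := prex }
      ⟨inv₂, csa, by omega, C₂.sep, by omega, fun u g h => h, fun u => by
        obtain ⟨a, b, hp⟩ := p1 u
        refine ⟨Wd n a b (2 * L'), (p4 _ u a b hp).2 (Subgroup.mem_zpowers _), ?_⟩
        simpa using p5' u a b 1 hp one_ne_zero⟩ inv'.hyp (C₂.ι (C₁.ι S.x₀)) S.cyc
  have KS : KC S.π κ := kc_of S.φ S.π S.φ_surj S.ker hκ hQ
  obtain ⟨N, hN, N1, N2, N3, N4⟩ := lift_rot2 R C₂.iso (by omega) (C₂.ι_ne (C₁.ι S.x₀)) S.π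
    S.π_surj KS E hdv (fun u u' => if Cd S.ψ u u' then S.φ (ιQ Q (bs (S.ψ u))) else 1)
    (fun u u' => by
      split_ifs
      · exact S.πι _
      · exact map_one _)
    (fun g u u' => by
      simp only [Cd_conj]
      split_ifs
      · obtain ⟨γ, rfl⟩ := S.φ_surj g
        rw [← map_inv S.φ, ← map_mul S.φ, ← map_mul S.φ, ι_conj, cj_bs, map_mul, map_mul,
          map_inv, S.ψ_eq]
      · simp) pair p1 p2 p3 p4 p5'
  have hψ : ∀ h ∈ R.N, S.ψ h = 1 := by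
    intro h hh
    refine Subgroup.iSup_induction R.G (C := fun h => S.ψ h = 1) hh ?_ (map_one _) ?_
    · intro u r hr
      obtain ⟨a, b, hp⟩ := p1 u
      obtain ⟨k, rfl⟩ := (p4 r u a b hp).1 hr
      have h6 : ∀ x : Q, x ^ (κ * m₀ * (10 * M₁ + 100 * ε₁ + 5 * δ)) = 1 := by
        intro x
        rw [mul_assoc, pow_mul, hQ, one_pow]
      simp only [map_zpow, Wd_map]
      rw [E.Wd_torsion _ _ (h6 _) (h6 _), one_zpow]
    · intro x y hx hy; rw [map_mul, hx, hy, one_mul]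
  let π' : S.G ⧸ N →* S.H ⧸ R.N := QuotientGroup.map N R.N S.π N1
  have π'e : ∀ g : S.G, π' (g : S.G ⧸ N) = (S.π g : S.H ⧸ R.N) := fun g => rfl
  let ψ' : S.H ⧸ R.N →* Q := QuotientGroup.lift R.N S.ψ hψ
  have ψ'e : ∀ g : S.H, ψ' (g : S.H ⧸ R.N) = S.ψ g := fun g => rfl
  have ker' : ∀ g : S.G ⧸ N, π' g = 1 →
      ∃ t, g = ((QuotientGroup.mk' N).comp S.φ) (ιQ Q t) := by
    intro g hg
    obtain ⟨g, rfl⟩ := QuotientGroup.mk_surjective g
    rw [π'e, QuotientGroup.eq_one_iff] at hg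
    obtain ⟨g', h1, h2⟩ := N2 _ hg
    obtain ⟨k, hk⟩ := S.ker (g'⁻¹ * g) (by simp [h2])
    refine ⟨k, ?_⟩
    show _ = (QuotientGroup.mk' N) (S.φ (ιQ Q k))
    rw [← hk, map_mul, map_inv, QuotientGroup.mk'_apply, (QuotientGroup.eq_one_iff _).2 h1]
    simp
  have KS' : KC π' κ := kc_of ((QuotientGroup.mk' N).comp S.φ) π'
    ((QuotientGroup.mk'_surjective N).comp S.φ_surj) ker' hκ hQ
  refine ⟨{ G := S.G ⧸ N, H := S.H ⧸ R.N, V := V', φ := (QuotientGroup.mk' N).comp S.φ,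
            π := π', ψ := ψ', X := X', x₀ := pr (C₂.ι (C₁.ι S.x₀)),
            φ_surj := (QuotientGroup.mk'_surjective N).comp S.φ_surj,
            π_surj := ?_, πι := ?_, ker := ker', inj := ?_, ψ_eq := fun γ => S.ψ_eq γ,
            inv := inv', csa := csa', cyc := cyc', rel := ?_ }, ?_, ?_⟩
  · intro h
    obtain ⟨h, rfl⟩ := QuotientGroup.mk_surjective h
    obtain ⟨g, rfl⟩ := S.π_surj h
    exact ⟨g, rfl⟩
  · intro t
    show ((S.π (S.φ (ιQ Q t)) : S.H) : S.H ⧸ R.N) = 1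
    rw [S.πι]; rfl
  · intro k hk
    apply S.inj k
    apply N3
    · rw [← QuotientGroup.eq_one_iff]; exact hk
    · exact S.πι k
  · intro a' b' hab hT
    have pos := inv.pos
    have hab' : ¬ Commute (π' a') (π' b') := by
      intro h
      apply hab
      have : Commute (vE e (π' a') (π' b')) (π' a') := by
        unfold vE
        exact ((Commute.refl _).pow_left _).mul_left (h.symm.pow_left _)
      unfold vE'
      exact (this.inv_right.mul_right (Commute.refl _)).mul_right this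
    unfold Mv at hT
    push Not at hT
    obtain ⟨x', hx'⟩ := hT
    obtain ⟨q, hq⟩ := small_root inv'.iso inv'.hyp (by omega) hx'.le
    obtain ⟨p', pa, pb⟩ := dlE inv' csa' hab' he hq
    obtain ⟨p, rfl⟩ := prs p'
    have lift : ∀ c' : S.G ⧸ N, ∃ c : S.G, S.π c = S.π c ∧ π' c' = (S.π c : S.H ⧸ R.N) ∧
        C₂.Z.d p (S.π c • p) = X'.d (pr p) (π' c' • pr p) := by
      intro c'
      obtain ⟨c, rfl⟩ := QuotientGroup.mk_surjective c'
      obtain ⟨m, hm, e0⟩ := prex p (S.π c • p)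
      obtain ⟨c₁, hc₁⟩ := S.π_surj (m * S.π c)
      refine ⟨c₁, rfl, ?_, ?_⟩
      · rw [π'e, hc₁, QuotientGroup.mk_mul, (QuotientGroup.eq_one_iff _).2 hm, one_mul]
      · rw [hc₁, mul_smul, ← e0, pre, π'e]
    obtain ⟨a, -, ea, da⟩ := lift a'
    obtain ⟨b, -, eb, db⟩ := lift b'
    have e1 : wE e n (2 * L') a' b' = ((wE e n (2 * L') a b : S.G) : S.G ⧸ N) := by
      have h1 : π' a' = π' (a : S.G ⧸ N) := ea
      have h2 : π' b' = π' (b : S.G ⧸ N) := eb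
      have : wE e n (2 * L') a' b' = wE e n (2 * L') (a : S.G ⧸ N) (b : S.G ⧸ N) :=
        KS'.Wd_lift E hdv (by rw [map_vE, map_vE, h1, h2]) (by rw [map_vE', map_vE', h1, h2])
      rw [this]; exact (map_wE (QuotientGroup.mk' N) e n _ a b).symm
    rw [e1, ea, eb, ψ'e, ψ'e]
    rw [ea, eb] at hab hx'
    have evw : vE e (S.π a : S.H ⧸ R.N) (S.π b : S.H ⧸ R.N) = (vE e (S.π a) (S.π b) : S.H) :=
      (map_vE (QuotientGroup.mk' R.N) _ _ _).symm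
    have evw' : vE' e (S.π a : S.H ⧸ R.N) (S.π b : S.H ⧸ R.N) = (vE' e (S.π a) (S.π b) : S.H) :=
      (map_vE' (QuotientGroup.mk' R.N) _ _ _).symm
    rw [evw, evw'] at hab
    rw [evw] at hx'
    have hab0 : ¬ Commute (vE e (S.π a) (S.π b)) (vE' e (S.π a) (S.π b)) :=
      fun h => hab (h.map (QuotientGroup.mk' R.N))
    by_cases hT0 : S.X.Mv (vE e (S.π a) (S.π b) ^ m₀) (100 * δ)
    swap
    · rw [S.rel a b hab0 hT0]; rfl
    by_cases hu : ∃ u : U₁, vE e (S.π a) (S.π b) • u = u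
    · obtain ⟨u, hu⟩ := hu
      obtain ⟨u₂, hp⟩ := padm _ _ (adm_of_fixE C₁ inv inv₁ csa he hκ hDT.ge E hab0 hu hT0)
      rw [← map_vE, ← map_vE'] at hp
      have := N4 u₂ _ _ hp
      rw [← QuotientGroup.eq_one_iff, QuotientGroup.mk_mul, QuotientGroup.mk_inv,
        mul_inv_eq_one] at this
      have e2 : S.ψ (vE e (S.π a) (S.π b)) = S.ψ (S.π a) * S.ψ (S.π b) := by
        rw [map_vE, vE, heQ, heQ]
      have e3 := Cd_iff S.cyc S.ψ (vE e (S.π a) (S.π b)) (S.π a)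
      rw [e2] at e3
      simp only [map_vE, map_vE'] at this
      refine this.trans ?_
      have e4 : vE e (S.ψ (S.π a)) (S.ψ (S.π b)) = S.ψ (S.π a) * S.ψ (S.π b) := by
        rw [vE, heQ, heQ]
      rw [vE', al, e4]
      by_cases h5 : Mx (S.ψ (S.π a) * S.ψ (S.π b)) ∧
          S.ψ (S.π a) ∉ Subgroup.zpowers (S.ψ (S.π a) * S.ψ (S.π b))
      · rw [if_pos h5, if_pos (e3.2 h5)]; rfl
      · rw [if_neg h5, if_neg (fun h => h5 (e3.1 h)), map_one, map_one]; rfl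
    exfalso
    push Not at hu
    set v := vE e (S.π a) (S.π b) with hv
    have hv2 : ∀ u : U₂, v • u ≠ u := by
      intro u h
      apply hab
      rw [(QuotientGroup.eq_one_iff _).2 (R.le_N u h)]
      exact Commute.one_left _
    have hgen := doubling inv st2 cover hu i₀ (hm₀ ▸ hT0)
    rcases C₂.shallow p D' (by omega) with ⟨u, -, h1⟩ | ⟨x, hx⟩
    · apply hab'
      rw [ea, eb]
      exact (st1' u _ _ (h1 _ (by omega)) (h1 _ (by omega))).map (QuotientGroup.mk' R.N)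
    have sm : ∀ g : S.H, C₂.Z.d p (g • p) ≤ D' → C₁.Z.d x (g • x) ≤ D'' := by
      intro g hg
      have h1 := C₂.iso.disp_move g (C₂.ι x) p
      rw [C₂.Z.symm (C₂.ι x) p, ← C₂.ι_smul] at h1
      exact hD'' ▸ C₂.sh x (g • x) (3 * D') (by omega) (by omega)
    have sv : C₁.Z.d x (v • x) ≤ 2 * (e * D'') := by
      have := sm (S.π a) (by omega); have := sm (S.π b) (by omega)
      have := C₁.iso.disp_mul (S.π a ^ e) (S.π b ^ e) x
      have := C₁.iso.disp_pow (S.π a) x e; have := C₁.iso.disp_pow (S.π b) x e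
      have : e * C₁.Z.d x (S.π a • x) ≤ e * D'' := Nat.mul_le_mul_left _ (by omega)
      have : e * C₁.Z.d x (S.π b • x) ≤ e * D'' := Nat.mul_le_mul_left _ (by omega)
      rw [hv]; unfold vE; omega
    obtain ⟨c, hc⟩ := lower1 C₁ inv inv₁ (by omega) hgen hu x (B := B₁) (by omega) (by omega)
    refine final_contra (m := m₀) (δ := δ) (B₂ := B₂) (c' := 2 * X'.d (pr (C₂.ι x)) x') hc
      (g := fun k => X'.d (pr (C₂.ι x)) (pr (C₂.ι (v ^ k • x)))) (fun k => ?_) (fun k => ?_)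
      (by omega)
    · have h1 : ∀ u, C₂.P.Ang u (C₂.ι x) (C₂.ι (v ^ k • x)) Θ :=
        fun u => hΘ ▸ C₂.pa v u x _ k sv (hv2 u)
      rw [priso _ _ Θ h1 (by omega), hB₂]
      exact C₂.pl _ _ _ h1
    · have h1 := inv'.iso.disp_move ((v : S.H ⧸ R.N) ^ (m₀ * k)) (pr (C₂.ι x)) x'
      have h2 := inv'.iso.disp_pow ((v : S.H ⧸ R.N) ^ m₀) x' k
      have h3 := Nat.mul_le_mul_left k hx'.le
      rw [← pow_mul] at h2
      simp only [C₂.ι_smul, pre, QuotientGroup.mk_pow]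
      omega
  · intro γ h
    show ((S.φ γ : S.G) : S.G ⧸ N) = 1
    rw [h]; rfl
  · intro γ
    show 2 * X'.d (pr (C₂.ι (C₁.ι S.x₀)))
      (((S.π (S.φ γ) : S.H) : S.H ⧸ R.N) • pr (C₂.ι (C₁.ι S.x₀))) ≤ _
    rw [← pre, ← C₂.ι_smul, ← C₁.ι_smul]
    have h1 := prle (C₂.ι (C₁.ι S.x₀)) (C₂.ι (C₁.ι (S.π (S.φ γ) • S.x₀)))
    have h2 := C₂.shrink (C₁.ι S.x₀) (C₁.ι (S.π (S.φ γ) • S.x₀))
    have h3 := C₁.shrink S.x₀ (S.π (S.φ γ) • S.x₀)
    have pos := inv.pos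
    generalize C₂.Z.d _ _ = d2 at *
    generalize C₁.Z.d _ _ = d1 at *
    generalize S.X.d _ _ = d0 at *
    have h4 : d1 ≤ d0 + 1 := by
      by_contra hc
      have : s₁ * (d0 + 2) ≤ s₁ * d1 := Nat.mul_le_mul_left _ (by omega)
      have : 1 * d0 ≤ s₁ * d0 := Nat.mul_le_mul_right _ (by omega)
      rw [mul_add] at *; omega
    have h5 : 2 * d2 ≤ d0 + 2 := by
      rcases Nat.lt_or_ge d2 2 with hd | hd
      · omega
      · obtain ⟨f, rfl⟩ : ∃ f, d2 = f + 1 := ⟨d2 - 1, by omega⟩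
        have : 4 * f ≤ s₂ * f := Nat.mul_le_mul_right _ (by omega)
        rw [mul_add] at h2; omega
    omega

end Pool.Agent.P.MP_4b59b0_al.Cls
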